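import Pool.Agent.Lib_helper60.PQ.Defs

/-!
# Project PQ, block QR: the quartic symbol
-/

set_option autoImplicit false

namespace Pool.Agent.PQ

/-- `J(|Y| | p) = J(Y | p)` for `p ≡ 1 mod 4` -/
theorem qr_abs (p : ℕ) (hp : p % 4 = 1) (Y : ℤ) : jacobiSym Y p = jacobiSym (Y.natAbs : ℤ) p := by
  rcases Int.natAbs_eq Y with h | h
  · rw [← h]
  · conv_lhs => rw [h]
    rw [jacobiSym.neg _ (Nat.odd_iff.2 (by omega)), ZMod.χ₄_nat_one_mod_four hp, one_mul]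

/-- the odd part -/
theorem qr_odd (p q : ℕ) (hp : p.Prime) (hp4 : p % 4 = 1) (m : ℕ) (hm : Nat.Coprime m (2 * (p * q))) (X Y : ℤ)
    (hXY : IsCoprime X Y) (h : (m : ℤ) ^ 2 = p * X ^ 2 + q * Y ^ 2) (b : ℕ) (hb : Odd b) (hbY : (b : ℤ) ∣ Y) :
    jacobiSym b p = 1 := by
  have hmp : Nat.Coprime m p := Nat.Coprime.coprime_dvd_right ⟨2 * q, by ring⟩ hm
  have hXb : IsCoprime X (b : ℤ) := IsCoprime.of_isCoprime_of_dvd_right hXY hbY
  have hmb : IsCoprime (m : ℤ) (b : ℤ) := by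
    rw [Int.isCoprime_iff_gcd_eq_one]
    by_contra hne
    obtain ⟨l, hl, hlg⟩ := Nat.exists_prime_and_dvd hne
    have h1 : (l : ℤ) ∣ (m : ℤ) := (Int.natCast_dvd_natCast.2 hlg).trans (Int.gcd_dvd_left _ _)
    have h2 : (l : ℤ) ∣ (b : ℤ) := (Int.natCast_dvd_natCast.2 hlg).trans (Int.gcd_dvd_right _ _)
    have h3 : (l : ℤ) ∣ p * X ^ 2 := by
      have e : (p : ℤ) * X ^ 2 = (m : ℤ) ^ 2 - q * Y ^ 2 := by rw [h]; ring
      rw [e]
      exact dvd_sub (dvd_pow h1 (by norm_num)) ((dvd_pow (h2.trans hbY) (by norm_num)).mul_left _)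
    have hlp : Prime (l : ℤ) := Nat.prime_iff_prime_int.1 hl
    rcases hlp.dvd_or_dvd h3 with h4 | h4
    · have h5 : l ∣ p := Int.natCast_dvd_natCast.1 h4
      have h6 : l ∣ m := Int.natCast_dvd_natCast.1 h1
      have := Nat.dvd_gcd h6 h5
      rw [hmp] at this
      exact hl.one_lt.ne' (Nat.dvd_one.1 this)
    · have h5 := hlp.dvd_of_dvd_pow h4
      exact hlp.not_isUnit (hXb.isUnit_of_dvd' h5 h2)
  have e1 : jacobiSym ((p : ℤ) * X ^ 2) b = 1 := by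
    have : jacobiSym ((p : ℤ) * X ^ 2) b = jacobiSym ((m : ℤ) ^ 2) b := by
      refine jacobiSym.mod_left' ?_
      refine Int.ModEq.eq ?_
      refine (Int.modEq_iff_dvd).2 ?_
      have e : (m : ℤ) ^ 2 - p * X ^ 2 = q * Y ^ 2 := by rw [h]; ring
      rw [e]
      exact (dvd_pow hbY (by norm_num)).mul_left _
    rw [this]
    exact jacobiSym.sq_one' (Int.isCoprime_iff_gcd_eq_one.1 hmb)
  rw [jacobiSym.mul_left, jacobiSym.sq_one' (Int.isCoprime_iff_gcd_eq_one.1 hXb), mul_one] at e1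
  rw [← jacobiSym.quadratic_reciprocity_one_mod_four hp4 hb]
  exact e1

theorem qr_Y (p q : ℕ) (hpq : Pair p q) (m : ℕ) (hm : Nat.Coprime m (2 * (p * q))) (X Y : ℤ)
    (hXY : IsCoprime X Y) (h : (m : ℤ) ^ 2 = p * X ^ 2 + q * Y ^ 2) (hY0 : Y ≠ 0) :
    jacobiSym Y p = if p % 8 = 1 then 1 else -1 := by
  obtain ⟨hp, hq, hp4, hq4, h8⟩ := hpq
  have hpo : Odd p := Nat.odd_iff.2 (by omega)
  rw [qr_abs p hp4 Y]
  have hYn : Y.natAbs ≠ 0 := Int.natAbs_ne_zero.2 hY0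
  obtain ⟨s, b, hb, hs⟩ := Nat.exists_eq_two_pow_mul_odd hYn
  have hbY : (b : ℤ) ∣ Y := by
    rw [Int.natCast_dvd, hs]; exact dvd_mul_left _ _
  have e : jacobiSym (Y.natAbs : ℤ) p = jacobiSym 2 p ^ s := by
    rw [hs]; push_cast
    rw [jacobiSym.mul_left, jacobiSym.pow_left, qr_odd p q hp hp4 m hm X Y hXY h b hb hbY, mul_one]
  rw [e, jacobiSym.at_two hpo]
  split_ifs with h1
  · have : ZMod.χ₈ (p : ZMod 8) = 1 := by
      have : (p : ZMod 8) = 1 := by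
        have := ZMod.natCast_mod p 8
        rw [h1] at this; rw [← this]; rfl
      rw [this]; decide
    rw [this, one_pow]
  · have hp8 : p % 8 = 5 := by omega
    have hq8 : q % 8 = 7 := by
      have := Nat.mul_mod p q 8
      rw [h8, hp8] at this
      have hq' : q % 8 < 8 := Nat.mod_lt _ (by norm_num)
      interval_cases hh : q % 8 <;> omega
    have : ZMod.χ₈ (p : ZMod 8) = -1 := by
      have : (p : ZMod 8) = 5 := by
        have := ZMod.natCast_mod p 8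
        rw [hp8] at this; rw [← this]; rfl
      rw [this]; decide
    rw [this]
    have hmo : m % 2 = 1 := by
      have : Nat.Coprime m 2 := Nat.Coprime.coprime_dvd_right ⟨p * q, rfl⟩ hm
      exact Nat.odd_iff.1 ((Nat.coprime_two_right).1 this)
    have hY4 : Y % 4 = 2 := by
      obtain ⟨a, ha⟩ : ∃ a : ℤ, (p : ℤ) = 8 * a + 5 := ⟨(p / 8 : ℕ), by omega⟩
      obtain ⟨c, hc⟩ : ∃ c : ℤ, (q : ℤ) = 8 * c + 7 := ⟨(q / 8 : ℕ), by omega⟩
      obtain ⟨x, hx⟩ : ∃ x : ℤ, X = 4 * x + X % 4 := ⟨X / 4, by omega⟩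
      obtain ⟨y, hy⟩ : ∃ y : ℤ, Y = 4 * y + Y % 4 := ⟨Y / 4, by omega⟩
      obtain ⟨u, hu⟩ : ∃ u : ℤ, (m : ℤ) = 2 * u + 1 := ⟨(m / 2 : ℕ), by omega⟩
      obtain ⟨w, hw⟩ : ∃ w : ℤ, u * (u + 1) = 2 * w := by
        obtain ⟨w, hw⟩ := Int.even_mul_succ_self u; exact ⟨w, by rw [hw]; ring⟩
      have hm8 : (m : ℤ) ^ 2 = 8 * w + 1 := by rw [hu]; nlinarith [hw]
      rw [hm8, ha, hc] at h
      have hX4 : X % 4 = 0 ∨ X % 4 = 1 ∨ X % 4 = 2 ∨ X % 4 = 3 := by omega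
      have hY4 : Y % 4 = 0 ∨ Y % 4 = 1 ∨ Y % 4 = 2 ∨ Y % 4 = 3 := by omega
      have e8 : ∀ t r : ℤ, (4 * t + r) ^ 2 = 8 * (2 * t ^ 2 + t * r) + r ^ 2 := fun t r => by ring
      by_contra hcon
      rw [hx, hy, e8, e8] at h
      generalize hA : 2 * x ^ 2 + x * (X % 4) = A at h
      generalize hB : 2 * y ^ 2 + y * (Y % 4) = B at h
      have h' : 8 * w + 1 = 8 * (a * (8 * A + (X % 4) ^ 2) + 5 * A + c * (8 * B + (Y % 4) ^ 2) + 7 * B)
          + 5 * (X % 4) ^ 2 + 7 * (Y % 4) ^ 2 := by rw [h]; ring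
      generalize a * (8 * A + (X % 4) ^ 2) + 5 * A + c * (8 * B + (Y % 4) ^ 2) + 7 * B = D at h'
      rcases hX4 with h2 | h2 | h2 | h2 <;> rcases hY4 with h3 | h3 | h3 | h3 <;>
        rw [h2, h3] at h' <;> first | omega | (exact hcon h3)
    have hs1 : s = 1 := by
      have hb2 : b % 2 = 1 := Nat.odd_iff.1 hb
      have hYa : Y.natAbs % 4 = 2 := by omega
      rcases s with _ | _ | s
      · rw [hs] at hYa; simp at hYa; omega
      · rfl
      · exfalso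
        have : Y.natAbs = 4 * (2 ^ s * b) := by rw [hs, pow_succ, pow_succ]; ring
        omega
    rw [hs1, pow_one]

theorem quartic_sym (p q : ℕ) (hpq : Pair p q) (m : ℕ) (hm : Nat.Coprime m (2 * (p * q))) (X Y : ℤ)
    (hXY : IsCoprime X Y) (h : (m : ℤ) ^ 2 = p * X ^ 2 + q * Y ^ 2) :
    Pow2 q p ∧ (jacobiSym m p = 1 ↔ (Pow4 q p ↔ p % 8 = 1)) := by
  have hpq' := hpq
  obtain ⟨hp, hq, hp4, hq4, h8⟩ := hpq
  haveI : Fact p.Prime := ⟨hp⟩
  have hmp : Nat.Coprime m p := Nat.Coprime.coprime_dvd_right ⟨2 * q, by ring⟩ hm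
  have hm0 : (m : ZMod p) ≠ 0 := by
    rw [Ne, ZMod.natCast_eq_zero_iff]
    intro hd
    have := Nat.dvd_gcd hd (dvd_refl p)
    rw [hmp] at this
    exact hp.one_lt.ne' (Nat.dvd_one.1 this)
  have hc : (m : ZMod p) ^ 2 = q * (Y : ZMod p) ^ 2 := by
    have := congrArg (fun z : ℤ => (z : ZMod p)) h
    push_cast at this
    rw [this]; simp
  have hYz : (Y : ZMod p) ≠ 0 := by
    intro h0; rw [h0] at hc
    apply hm0
    have : (m : ZMod p) ^ 2 = 0 := by rw [hc]; ring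
    exact pow_eq_zero_iff (two_ne_zero) |>.1 this
  have hY0 : Y ≠ 0 := by rintro rfl; simp at hYz
  set t : ZMod p := m / Y with ht
  have ht2 : t ^ 2 = q := by
    rw [ht, div_pow, hc]; field_simp
  have ht0 : t ≠ 0 := div_ne_zero hm0 hYz
  have hneg1 : IsSquare (-1 : ZMod p) := ZMod.exists_sq_eq_neg_one_iff.2 (by omega)
  have hP4 : Pow4 q p ↔ IsSquare t := by
    constructor
    · rintro ⟨x, hx⟩
      have e : (x ^ 2) ^ 2 = t ^ 2 := by rw [ht2, ← hx]; ring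
      rcases sq_eq_sq_iff_eq_or_eq_neg.1 e with h1 | h1
      · exact ⟨x, by rw [← h1]; ring⟩
      · have : t = (-1) * x ^ 2 := by rw [h1]; ring
        rw [this]
        exact hneg1.mul ⟨x, by ring⟩
    · rintro ⟨z, hz⟩
      exact ⟨z, by rw [← ht2, hz]; ring⟩
  refine ⟨⟨t, ht2⟩, ?_⟩
  have hJY := qr_Y p q hpq' m hm X Y hXY h hY0
  have hmJ : jacobiSym m p = quadraticChar (ZMod p) (m : ZMod p) := by
    rw [← jacobiSym.legendreSym.to_jacobiSym, legendreSym]; simp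
  have hYJ : jacobiSym Y p = quadraticChar (ZMod p) (Y : ZMod p) := by
    rw [← jacobiSym.legendreSym.to_jacobiSym, legendreSym]
  have htq : quadraticChar (ZMod p) t * quadraticChar (ZMod p) (Y : ZMod p) =
      quadraticChar (ZMod p) (m : ZMod p) := by
    rw [← map_mul, ht, div_mul_cancel₀ _ hYz]
  have hsq : IsSquare t ↔ quadraticChar (ZMod p) t = 1 := (quadraticChar_one_iff_isSquare ht0).symm
  rw [hP4, hsq, hmJ, ← htq, ← hYJ, hJY]
  rcases quadraticChar_dichotomy ht0 with h1 | h1 <;> rw [h1] <;> split_ifs with h2 <;> simp [h2]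

end Pool.Agent.PQ
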